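import Pool.Agent.helper24.TG.S2

set_option linter.all false
set_option autoImplicit false

namespace Pool.Agent.helper24.TG

open Finset Classical
open Pool.Agent.helper11.Tight (nb eo mem_nb)

theorem PP1_cge (p : Par) : 10 ^ 6 ≤ p.c := by
  have h1 := p.hLog
  have h2 := p.hLam
  nlinarith

theorem PP1_cpos (p : Par) : 0 < p.c := lt_of_lt_of_le (by norm_num) (PP1_cge p)

theorem PP1_qge (p : Par) : p.c ^ (p.kT + 12) ≤ p.q := by
  have h1 := p.N4
  have h2 := p.hLa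
  exact le_trans (Nat.le_mul_of_pos_left _ h2) h1

theorem PP1_qpos (p : Par) : 0 < p.q := lt_of_lt_of_le (pow_pos (PP1_cpos p) _) (PP1_qge p)

theorem PP1_Bge (p : Par) : 1 ≤ p.B := le_trans (Nat.one_le_pow _ _ (PP1_cpos p)) p.N7

theorem PP1_dpos (p : Par) : 0 < p.d := lt_of_lt_of_le (by norm_num) p.hd

theorem PP1_Cpos (p : Par) : 0 < p.C := by
  rcases Nat.eq_zero_or_pos p.C with h | h
  · have h1 := p.hC1
    rw [h] at h1
    have h2 : 0 < p.c ^ 3 * p.q * p.d :=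
      Nat.mul_pos (Nat.mul_pos (pow_pos (PP1_cpos p) 3) (PP1_qpos p)) (PP1_dpos p)
    omega
  · exact h

theorem PP1_rc (p : Par) : (10 : ℝ) ^ 6 ≤ p.c := by exact_mod_cast PP1_cge p
theorem PP1_rc0 (p : Par) : (0 : ℝ) < p.c := lt_of_lt_of_le (by norm_num) (PP1_rc p)
theorem PP1_rc1 (p : Par) : (1 : ℝ) ≤ p.c := le_trans (by norm_num) (PP1_rc p)
theorem PP1_rq (p : Par) : (0 : ℝ) < p.q := by exact_mod_cast PP1_qpos p
theorem PP1_rd (p : Par) : (0 : ℝ) < p.d := by exact_mod_cast PP1_dpos p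
theorem PP1_rN (p : Par) : (0 : ℝ) < p.N := by exact_mod_cast p.hN
theorem PP1_rLam (p : Par) : (10 : ℝ) ^ 6 * p.Lam ≤ p.c := by exact_mod_cast p.hLog

theorem PP1_rho_pos (p : Par) : 0 < p.rho := by
  unfold Par.rho
  exact div_pos (mul_pos (PP1_rq p) (PP1_rd p)) (PP1_rN p)

theorem PP1_rho_ge1 (p : Par) : ((p.c : ℝ) * p.B) ^ 100 * (p.K + 1) ≤ p.rho := by
  have h : ((p.c : ℝ) * p.B) ^ 100 * p.L * (p.K + 1) * p.N ≤ p.q * p.d := by exact_mod_cast p.N2
  have hL : (1 : ℝ) ≤ p.L := by exact_mod_cast p.hL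
  unfold Par.rho
  rw [le_div_iff₀ (PP1_rN p)]
  refine le_trans ?_ h
  have h1 : (0 : ℝ) ≤ ((p.c : ℝ) * p.B) ^ 100 * (p.K + 1) * p.N := by positivity
  nlinarith [mul_le_mul_of_nonneg_left hL h1]

theorem PP1_exp {n : ℕ} {y : ℝ} (h : (n : ℝ) ≤ y) : ((2 ^ n : ℕ) : ℝ) ≤ Real.exp y := by
  push_cast
  calc (2 : ℝ) ^ n ≤ (Real.exp 1) ^ n := by
        refine pow_le_pow_left₀ (by norm_num) ?_ n
        have := Real.add_one_le_exp (1 : ℝ)
        linarith
    _ = Real.exp n := by rw [← Real.exp_nat_mul]; simp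
    _ ≤ Real.exp y := Real.exp_le_exp.2 h

theorem PP1_card_P_le (p : Par) : p.q ^ 2 + p.q + 1 ≤ 2 ^ p.Lam := by
  have h1 := p.s1
  have hq := PP1_qpos p
  have hB := PP1_Bge p
  have hC := PP1_Cpos p
  have h2 : p.q ^ 2 + p.q + 1 ≤ 4 * 1 * p.q ^ 2 * 1 := by nlinarith
  refine le_trans h2 (le_trans ?_ h1)
  gcongr <;> omega

theorem PP1_card_PA_le (p : Par) : (p.q ^ 2 + p.q + 1) * p.B ≤ 2 ^ p.Lam := by
  have h1 := p.s1
  have hq := PP1_qpos p
  have hB := PP1_Bge p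
  have hC := PP1_Cpos p
  have h2 : p.q ^ 2 + p.q + 1 ≤ 4 * p.q ^ 2 := by nlinarith
  calc (p.q ^ 2 + p.q + 1) * p.B ≤ (4 * p.q ^ 2) * p.B := Nat.mul_le_mul_right _ h2
    _ = 4 * p.B * p.q ^ 2 * 1 := by ring
    _ ≤ 4 * p.B * p.q ^ 2 * p.C := Nat.mul_le_mul_left _ hC
    _ ≤ _ := h1

/-- the real form of the failure estimate -/
theorem PP1_conv {S T n : ℕ} {y : ℝ} (h : (S : ℝ) * Real.exp y ≤ T) (hn : (n : ℝ) ≤ y) :
    S * 2 ^ n ≤ T := by
  have h2 : ((S * 2 ^ n : ℕ) : ℝ) ≤ (T : ℝ) := by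
    rw [Nat.cast_mul]
    exact le_trans (mul_le_mul_of_nonneg_left (PP1_exp hn) (Nat.cast_nonneg _)) h
  exact_mod_cast h2

theorem PP1_rho_ge (p : Par) : (p.c : ℝ) ≤ p.rho := by
  have h := PP1_rho_ge1 p
  have hc := PP1_rc1 p
  have hB : (1 : ℝ) ≤ p.B := by exact_mod_cast PP1_Bge p
  have hK := (Nat.cast_nonneg p.K : (0 : ℝ) ≤ p.K)
  refine le_trans ?_ h
  have h1 : (p.c : ℝ) ≤ p.c * p.B := by nlinarith
  have h2 : (p.c : ℝ) * p.B ≤ ((p.c : ℝ) * p.B) ^ 100 := le_self_pow₀ (by nlinarith) (by norm_num)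
  have h3 : (0 : ℝ) ≤ ((p.c : ℝ) * p.B) ^ 100 := by positivity
  nlinarith

theorem PP1 (h : LB3_stmt) : PP1_stmt := by
  intro p P O V _ _ _ _ _ _ H T MM v0 hT
  classical
  set SP : Finset (Finset V) := MM ∪ Finset.univ.image (nb T) with hSP
  have hSPd : ∀ Z ∈ SP, Z.card = p.d := by
    intro Z hZ
    rcases Finset.mem_union.1 hZ with hZ | hZ
    · exact hT.card_M Z hZ
    · obtain ⟨u, -, rfl⟩ := Finset.mem_image.1 hZ
      exact hT.reg u
  have hSPc : SP.card ≤ 2 ^ (p.Lam + 1) := by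
    refine (Finset.card_union_le _ _).trans ?_
    have h1 : (Finset.univ.image (nb T)).card ≤ p.N := by
      refine Finset.card_image_le.trans ?_
      rw [Finset.card_univ, hT.card_V]
    have h2 := hT.card_MM
    have h3 := p.s2
    have h4 := p.s4
    rw [pow_succ]
    omega
  set I : Finset (P × Finset V) := Finset.univ ×ˢ SP with hI
  have hIc : I.card ≤ 2 ^ (2 * p.Lam + 1) := by
    rw [hI, Finset.card_product, Finset.card_univ, H.card_P]
    calc _ ≤ 2 ^ p.Lam * 2 ^ (p.Lam + 1) := Nat.mul_le_mul (PP1_card_P_le p) hSPc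
      _ = _ := by rw [← pow_add]; congr 1; ring
  have key := ub (Psi p H v0) I (fun i φ => 3 * p.rho <
    (((PA H).filter (fun t => H.inc t i.1 ∧ φ t ∈ i.2)).card : ℝ)) (2 * p.Lam + 1) (8 * p.Lam)
    hIc (by
      rintro ⟨l, Z⟩ hi
      have hZ : Z ∈ SP := (Finset.mem_product.1 hi).2
      have hZd := hSPd Z hZ
      have hL := h p P O V H v0 hT.card_V Z ((PA H).filter (fun t => H.inc t l)) (fun _ => 1) 1
        p.rho (Finset.filter_subset _ _) one_pos (fun _ _ => ⟨zero_le_one, le_rfl⟩)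
      rw [div_one] at hL
      have hn : ((2 * p.Lam + 1 + 8 * p.Lam : ℕ) : ℝ) ≤ p.rho := by
        refine le_trans ?_ (PP1_rho_ge p)
        have h1 := PP1_rLam p
        have h2 : (1 : ℝ) ≤ p.Lam := by exact_mod_cast p.hLam
        push_cast
        linarith
      refine le_trans (Nat.mul_le_mul_right _ (Finset.card_le_card ?_)) (PP1_conv hL hn)
      intro φ hφ
      simp only [Finset.mem_filter] at hφ ⊢
      refine ⟨hφ.1, ?_⟩
      have e1 : ∑ t ∈ (PA H).filter (fun t => H.inc t l), (if φ t ∈ Z then (1 : ℝ) else 0) =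
          (((PA H).filter (fun t => H.inc t l ∧ φ t ∈ Z)).card : ℝ) := by
        rw [← Finset.filter_filter, Finset.card_filter (fun t => φ t ∈ Z)]
        push_cast
        rfl
      rw [e1]
      refine le_trans ?_ hφ.2.le
      rw [hZd]
      have e2 : ∑ t ∈ (PA H).filter (fun t => H.inc t l), (1 : ℝ) ≤ p.q := by
        rw [Finset.sum_const, nsmul_eq_mul, mul_one]
        exact_mod_cast card_line_PA_le H l
      have e3 : (p.d : ℝ) / p.N * ∑ t ∈ (PA H).filter (fun t => H.inc t l), (1 : ℝ) ≤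
          p.rho := by
        unfold Par.rho
        have hN := PP1_rN p
        have hd := PP1_rd p
        calc _ ≤ (p.d : ℝ) / p.N * p.q := mul_le_mul_of_nonneg_left e2 (by positivity)
          _ = _ := by ring
      linarith)
  refine le_trans (Nat.mul_le_mul_right _ (Finset.card_le_card ?_)) key
  intro φ hφ
  simp only [Finset.mem_filter] at hφ ⊢
  refine ⟨hφ.1, ?_⟩
  have h2 := hφ.2
  unfold P1 at h2
  simp only [not_forall, not_le] at h2
  obtain ⟨l, Z, hZ, h3⟩ := h2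
  refine ⟨(l, Z), ?_, h3⟩
  rw [hI, Finset.mem_product]
  refine ⟨Finset.mem_univ _, ?_⟩
  rw [hSP, Finset.mem_union]
  rcases hZ with hZ | ⟨u, rfl⟩
  · exact Or.inl hZ
  · exact Or.inr (Finset.mem_image_of_mem _ (Finset.mem_univ _))

end Pool.Agent.helper24.TG
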