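import Pool.Agent.helper80.TG.PP1

set_option linter.all false
set_option autoImplicit false

namespace Pool.Agent.helper24.TG

open Finset Classical
open Pool.Agent.helper11.Tight (nb eo mem_nb)

theorem PP4c (h : LB3_stmt) (h3 : H3c_stmt) : PP4c_stmt := by
  intro p P O A V _ _ _ _ _ _ _ _ _ H v T MM v0 hA hT hH
  classical
  have hc6 := PP1_rc p
  have hc0 := PP1_rc0 p
  have hq0 := PP1_rq p
  have hN0 := PP1_rN p
  have hd0 := PP1_rd p
  have hr0 := PP1_rho_pos p
  have hcq : (p.c : ℝ) ^ 12 ≤ p.q := by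
    have h1 : (p.c : ℝ) ^ (p.kT + 12) ≤ p.q := by
      exact_mod_cast PP1_qge p
    exact le_trans (pow_le_pow_right₀ (PP1_rc1 p) (by omega)) h1
  set I : Finset ((P × A) × (P × A) × Finset V) := Finset.univ ×ˢ Finset.univ ×ˢ MM with hI
  have hPA : Fintype.card (P × A) ≤ 2 ^ p.Lam := by
    rw [Fintype.card_prod, H.card_P, hA]
    exact PP1_card_PA_le p
  have hIc : I.card ≤ 2 ^ (3 * p.Lam) := by
    rw [hI, Finset.card_product, Finset.card_product, Finset.card_univ]
    calc _ ≤ 2 ^ p.Lam * (2 ^ p.Lam * 2 ^ p.Lam) :=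
          Nat.mul_le_mul hPA (Nat.mul_le_mul hPA (hT.card_MM.trans p.s4))
      _ = _ := by rw [← pow_add, ← pow_add]; congr 1; ring
  have key := ub (Psi p H v0) I (fun i φ => i.1 ≠ i.2.1 ∧ p.q * p.rho / p.c <
    ((Gam H v i.1 ∩ Gam H v i.2.1 ∩ XA A H ∩ labS A φ i.2.2).card : ℝ)) (3 * p.Lam) (8 * p.Lam)
    hIc (by
      rintro ⟨z, z', Z⟩ hi
      by_cases hzz : z = z'
      · have : (Psi p H v0).filter (fun φ => (z, z', Z).1 ≠ (z, z', Z).2.1 ∧
            p.q * p.rho / p.c < ((Gam H v (z, z', Z).1 ∩ Gam H v (z, z', Z).2.1 ∩ XA A H ∩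
              labS A φ (z, z', Z).2.2).card : ℝ)) = ∅ := by
          apply Finset.filter_false_of_mem
          intro φ _ hh
          exact hh.1 hzz
        rw [this]
        simp
      have hZ : Z ∈ MM := (Finset.mem_product.1 (Finset.mem_product.1 hi).2).2
      have hZd := hT.card_M Z hZ
      set J : Finset P := (Gam H v z ∩ Gam H v z' ∩ XA A H).image Prod.fst with hJ
      have hJPA : J ⊆ PA H := by
        intro t ht
        obtain ⟨x, hx, rfl⟩ := Finset.mem_image.1 ht
        have := (Finset.mem_inter.1 hx).2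
        rw [mem_XA] at this
        exact mem_PA.2 this
      have hL := h p P O V H v0 hT.card_V Z J (fun _ => 1) 1
        (p.q * p.rho / (2 * p.c)) hJPA one_pos (fun _ _ => ⟨zero_le_one, le_rfl⟩)
      rw [div_one] at hL
      have hn : ((3 * p.Lam + 8 * p.Lam : ℕ) : ℝ) ≤ p.q * p.rho / (2 * p.c) := by
        have h1 := PP1_rLam p
        have h2 : (1 : ℝ) ≤ p.Lam := by exact_mod_cast p.hLam
        have h4 := PP1_rho_ge p
        rw [le_div_iff₀ (by positivity)]
        push_cast
        have h5 : (p.c : ℝ) ≤ p.q := le_trans (le_self_pow₀ (by linarith) (by norm_num)) hcq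
        have h6 : 11 * (p.Lam : ℝ) * 2 ≤ p.c := by linarith
        have h7 : (p.c : ℝ) * p.c ≤ p.q * p.rho := mul_le_mul h5 h4 hc0.le hq0.le
        nlinarith
      refine le_trans (Nat.mul_le_mul_right _ (Finset.card_le_card ?_)) (PP1_conv hL hn)
      intro φ hφ
      simp only [Finset.mem_filter] at hφ ⊢
      refine ⟨hφ.1, ?_⟩
      -- at most one point of every type
      have e1 : ((Gam H v z ∩ Gam H v z' ∩ XA A H ∩ labS A φ Z).card : ℝ) ≤
          ∑ t ∈ J, (if φ t ∈ Z then (1 : ℝ) else 0) := by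
        have : (Gam H v z ∩ Gam H v z' ∩ XA A H ∩ labS A φ Z).card ≤
            (J.filter (fun t => φ t ∈ Z)).card := by
          refine Finset.card_le_card_of_injOn Prod.fst ?_ ?_
          · intro x hx
            have hx' := Finset.mem_inter.1 (Finset.mem_coe.1 hx)
            refine Finset.mem_coe.2 (Finset.mem_filter.2 ⟨Finset.mem_image_of_mem _ hx'.1, ?_⟩)
            exact mem_labS.1 hx'.2
          · intro x hx y hy hxy
            have hx' := (Finset.mem_inter.1 (Finset.mem_inter.1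
              (Finset.mem_inter.1 (Finset.mem_coe.1 hx)).1).1).1
            have hy' := (Finset.mem_inter.1 (Finset.mem_inter.1
              (Finset.mem_inter.1 (Finset.mem_coe.1 hy)).1).1).1
            exact col_unique (mem_Gam.1 hx') (mem_Gam.1 hy') hxy
        calc ((Gam H v z ∩ Gam H v z' ∩ XA A H ∩ labS A φ Z).card : ℝ)
            ≤ ((J.filter (fun t => φ t ∈ Z)).card : ℝ) := by exact_mod_cast this
          _ = _ := by
            rw [Finset.card_filter]
            push_cast
            rfl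
      refine le_trans ?_ (hφ.2.2.le.trans e1)
      -- the mean
      have hJc : (J.card : ℝ) * (p.c : ℝ) ^ 6 ≤ 3 * (p.q : ℝ) ^ 2 := by
        have h1 : J.card ≤ (Gam H v z ∩ Gam H v z').card :=
          Finset.card_image_le.trans (Finset.card_le_card Finset.inter_subset_left)
        have h2 := h3 p P O A H v hH z z' hzz
        have h4 : (p.c : ℝ) ^ 6 * ((Gam H v z ∩ Gam H v z').card : ℝ) ≤
            (p.q + 1) * p.q + p.c ^ 6 * p.q := by exact_mod_cast h2
        have h5 : (J.card : ℝ) ≤ ((Gam H v z ∩ Gam H v z').card : ℝ) := by exact_mod_cast h1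
        have h6 : (p.c : ℝ) ^ 6 ≤ p.q :=
          le_trans (pow_le_pow_right₀ (by linarith) (by norm_num)) hcq
        have h7 : (1 : ℝ) ≤ p.q := le_trans (one_le_pow₀ (by linarith)) hcq
        have h8 : (0 : ℝ) ≤ (p.c : ℝ) ^ 6 := by positivity
        nlinarith [mul_le_mul_of_nonneg_left h5 h8, mul_le_mul_of_nonneg_right h6 hq0.le]
      have hsum : ∑ t ∈ J, (1 : ℝ) = J.card := by simp
      rw [hsum, hZd]
      have hgoal : 2 * ((p.d : ℝ) / p.N * J.card) ≤ p.q * p.rho / (2 * p.c) := by
        have e5 : 2 * ((p.d : ℝ) / p.N * J.card) * (p.c : ℝ) ^ 6 ≤ 6 * (p.q * p.rho) := by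
          have : 2 * ((p.d : ℝ) / p.N * J.card) * (p.c : ℝ) ^ 6 =
              2 * (p.d : ℝ) / p.N * (J.card * (p.c : ℝ) ^ 6) := by ring
          rw [this]
          have h9 : 6 * ((p.q : ℝ) * p.rho) = 2 * (p.d : ℝ) / p.N * (3 * (p.q : ℝ) ^ 2) := by
            unfold Par.rho
            ring
          rw [h9]
          exact mul_le_mul_of_nonneg_left hJc (by positivity)
        rw [le_div_iff₀ (by positivity)]
        have h10 : (0 : ℝ) ≤ 2 * ((p.d : ℝ) / p.N * J.card) := by positivity
        have h11 : 12 * (p.c : ℝ) ≤ (p.c : ℝ) ^ 6 := by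
          have : (p.c : ℝ) ^ 6 = p.c ^ 4 * p.c * p.c := by ring
          rw [this]
          have h12 : (1 : ℝ) ≤ p.c ^ 4 := one_le_pow₀ (by linarith)
          nlinarith [mul_pos hc0 hc0]
        nlinarith [mul_le_mul_of_nonneg_left h11 h10]
      have e6 : p.q * p.rho / p.c = p.q * p.rho / (2 * p.c) + p.q * p.rho / (2 * p.c) := by
        field_simp
        ring
      rw [e6]
      linarith)
  refine le_trans (Nat.mul_le_mul_right _ (Finset.card_le_card ?_)) key
  intro φ hφ
  simp only [Finset.mem_filter] at hφ ⊢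
  refine ⟨hφ.1, ?_⟩
  have h2 := hφ.2
  unfold P4' at h2
  simp only [not_forall, not_le] at h2
  obtain ⟨z, z', M, hzz, hM, h4⟩ := h2
  refine ⟨(z, z', M), ?_, hzz, h4⟩
  rw [hI, Finset.mem_product, Finset.mem_product]
  exact ⟨Finset.mem_univ _, Finset.mem_univ _, hM⟩

end Pool.Agent.helper24.TG
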