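import Pool.Agent.helper24.TG.S1

set_option linter.all false
set_option autoImplicit false

namespace Pool.Agent.helper24.TG

open Finset Classical

/-- exchange of the pairs `(v, a) <-> (update v o a, v o)` -/
theorem VS1_swap {O A : Type} [Fintype O] [DecidableEq O] [Fintype A] [DecidableEq A]
    (o : O) (F : (O → A) → A → ℝ) :
    ∑ v, ∑ a, F v a = ∑ v : O → A, ∑ a, F (Function.update v o a) (v o) := by
  classical
  rw [← Finset.sum_product', ← Finset.sum_product']
  have hinv : Function.Involutive
      (fun p : (O → A) × A => ((Function.update p.1 o p.2, p.1 o) : (O → A) × A)) := by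
    intro p
    simp
  have := Equiv.sum_comp (hinv.toPerm _) (fun p : (O → A) × A => F p.1 p.2)
  simp only [Finset.univ_product_univ]
  rw [← this]
  rfl

/-- at most `D` values of the coordinate `o` are not valid -/
theorem VS1_count {O A : Type} [Fintype O] [DecidableEq O] [Fintype A] [DecidableEq A]
    [AddCommGroup A] (TT : Finset (Finset O)) (D : ℕ) (hC : CS TT D) (o : O) (v : O → A)
    (hv : v ∈ Om A TT) :
    (Finset.univ.filter (fun a => Function.update v o a ∉ Om A TT)).card ≤ D := by
  classical
  refine le_trans ?_ (hC.deg o)
  have hsub : Finset.univ.filter (fun a => Function.update v o a ∉ Om A TT) ⊆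
      (TT.filter (fun S => o ∈ S)).image (fun S => - ∑ x ∈ S.erase o, v x) := by
    intro a ha
    simp only [Finset.mem_filter, Finset.mem_univ, true_and, mem_Om, not_forall, not_not] at ha
    obtain ⟨S, hS, hsum⟩ := ha
    have hoS : o ∈ S := by
      by_contra hno
      apply (mem_Om.1 hv) S hS
      rw [← hsum]
      refine Finset.sum_congr rfl (fun x hx => ?_)
      rw [Function.update_of_ne]
      rintro rfl
      exact hno hx
    refine Finset.mem_image.2 ⟨S, Finset.mem_filter.2 ⟨hS, hoS⟩, ?_⟩
    rw [← Finset.add_sum_erase _ _ hoS, Function.update_self] at hsum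
    have h2 : ∑ x ∈ S.erase o, Function.update v o a x = ∑ x ∈ S.erase o, v x := by
      refine Finset.sum_congr rfl (fun x hx => ?_)
      rw [Function.update_of_ne (Finset.ne_of_mem_erase hx)]
    rw [h2] at hsum
    exact (eq_neg_of_add_eq_zero_left hsum).symm
  exact (Finset.card_le_card hsub).trans Finset.card_image_le

theorem VS1 : VS1_stmt := by
  intro O A _ _ _ _ _ TT D hC hD o G z hG hGf hzf
  classical
  have key := VS1_swap (A := A) o (fun v a =>
    if v ∈ Om A TT ∧ Function.update v o a ∈ Om A TT ∧ v o = z v then G v else 0)
  have hR : ∑ v : O → A, ∑ a : A, (fun (v : O → A) (a : A) =>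
      if v ∈ Om A TT ∧ Function.update v o a ∈ Om A TT ∧ v o = z v then G v else 0)
      (Function.update v o a) (v o) ≤ ∑ v ∈ Om A TT, G v := by
    rw [← Finset.sum_filter_add_sum_filter_not Finset.univ (fun v => v ∈ Om A TT)]
    have h0 : ∑ v ∈ Finset.univ.filter (fun v : O → A => ¬ v ∈ Om A TT), ∑ a : A,
        (fun (v : O → A) (a : A) =>
      if v ∈ Om A TT ∧ Function.update v o a ∈ Om A TT ∧ v o = z v then G v else 0)
      (Function.update v o a) (v o) = 0 := by
      refine Finset.sum_eq_zero (fun v hv => Finset.sum_eq_zero (fun a _ => ?_))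
      simp only [Finset.mem_filter, Finset.mem_univ, true_and] at hv
      simp only [Function.update_idem, Function.update_eq_self]
      rw [if_neg]
      tauto
    rw [h0, add_zero]
    have h1 : Finset.univ.filter (fun v : O → A => v ∈ Om A TT) = Om A TT := by
      ext v; simp
    rw [h1]
    refine Finset.sum_le_sum (fun v hv => ?_)
    simp only [Function.update_idem, Function.update_eq_self, Function.update_self]
    have h2 : ∀ a : A, (if Function.update v o a ∈ Om A TT ∧ v ∈ Om A TT ∧
        a = z (Function.update v o a) then G (Function.update v o a) else 0) ≤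
        if a = z v then G v else 0 := by
      intro a
      rw [hGf, hzf]
      split_ifs with h3 h4 h4
      · exact le_rfl
      · exact absurd h3.2.2 h4
      · exact hG v
      · exact le_rfl
    refine (Finset.sum_le_sum (fun a _ => h2 a)).trans ?_
    simp
  have hL : ((Fintype.card A : ℝ) - D) * ∑ v ∈ Om A TT, (if v o = z v then G v else 0) ≤
      ∑ v : O → A, ∑ a : A,
      if v ∈ Om A TT ∧ Function.update v o a ∈ Om A TT ∧ v o = z v then G v else 0 := by
    rw [Finset.mul_sum]
    rw [← Finset.sum_filter_add_sum_filter_not Finset.univ (fun v => v ∈ Om A TT)]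
    have h1 : Finset.univ.filter (fun v : O → A => v ∈ Om A TT) = Om A TT := by
      ext v; simp
    rw [h1]
    have h0 : 0 ≤ ∑ v ∈ Finset.univ.filter (fun v : O → A => ¬ v ∈ Om A TT), ∑ a : A,
      (if v ∈ Om A TT ∧ Function.update v o a ∈ Om A TT ∧ v o = z v then G v else 0) := by
      refine Finset.sum_nonneg (fun v _ => Finset.sum_nonneg (fun a _ => ?_))
      split_ifs
      · exact hG v
      · exact le_rfl
    refine le_trans ?_ (le_add_of_nonneg_right h0)
    refine Finset.sum_le_sum (fun v hv => ?_)
    have h2 : ∑ a : A, (if v ∈ Om A TT ∧ Function.update v o a ∈ Om A TT ∧ v o = z v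
        then G v else 0) = ((Finset.univ.filter
          (fun a => Function.update v o a ∈ Om A TT)).card : ℝ) *
          (if v o = z v then G v else 0) := by
      rw [← nsmul_eq_mul, ← Finset.sum_const, Finset.sum_filter]
      refine Finset.sum_congr rfl (fun a _ => ?_)
      split_ifs <;> first | rfl | tauto
    rw [h2]
    have h3 : 0 ≤ (if v o = z v then G v else 0) := by
      split_ifs
      · exact hG v
      · exact le_rfl
    refine mul_le_mul_of_nonneg_right ?_ h3
    have h4 := VS1_count TT D hC o v hv
    have h5 := Finset.card_filter_add_card_filter_not (s := (Finset.univ : Finset A))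
      (fun a => Function.update v o a ∈ Om A TT)
    rw [Finset.card_univ] at h5
    have h6 : (Fintype.card A : ℝ) = ((Finset.univ.filter
          (fun a => Function.update v o a ∈ Om A TT)).card : ℝ) +
          ((Finset.univ.filter (fun a => ¬ Function.update v o a ∈ Om A TT)).card : ℝ) := by
      rw [← h5]; push_cast; ring
    have h7 : ((Finset.univ.filter
      (fun a => ¬ Function.update v o a ∈ Om A TT)).card : ℝ) ≤ D := by
      exact_mod_cast h4
    linarith
  linarith [hL, hR, key.le, key.ge]

end Pool.Agent.helper24.TG
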