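import Pool.Agent.helper80.TG.VS1

set_option linter.all false
set_option autoImplicit false

namespace Pool.Agent.helper24.TG

open Finset Classical

theorem VS2 : VS2_stmt := by
  intro O A _ _ _ _ _ TT o G z hG hGf hzf
  classical
  have key := VS1_swap (A := A) o (fun v a =>
    if v ∈ Om A TT ∧ Function.update v o a ∈ Om A TT ∧ a = z v then G v else 0)
  have h1 : ∀ f : (O → A) → ℝ, ∑ v ∈ Om A TT, f v = ∑ v, if v ∈ Om A TT then f v else 0 := by
    intro f
    rw [← Finset.sum_filter]
    congr 1
    ext v; simp
  have hL : ∑ v ∈ Om A TT, (if Function.update v o (z v) ∈ Om A TT then G v else 0) =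
      ∑ v : O → A, ∑ a : A,
      if v ∈ Om A TT ∧ Function.update v o a ∈ Om A TT ∧ a = z v then G v else 0 := by
    rw [h1]
    refine Finset.sum_congr rfl (fun v _ => ?_)
    rw [Finset.sum_eq_single (z v)]
    · split_ifs <;> first | rfl | tauto
    · intro b _ hb
      rw [if_neg]
      tauto
    · intro hb
      exact absurd (Finset.mem_univ _) hb
  rw [hL, key]
  have hR : (Fintype.card A : ℝ) * ∑ v ∈ Om A TT, (if v o = z v then G v else 0) =
      ∑ v : O → A, ∑ a : A, if v ∈ Om A TT ∧ v o = z v then G v else 0 := by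
    rw [h1, Finset.mul_sum]
    refine Finset.sum_congr rfl (fun v _ => ?_)
    rw [Finset.sum_const, Finset.card_univ, nsmul_eq_mul]
    split_ifs <;> first | rfl | tauto
  rw [hR]
  refine Finset.sum_le_sum (fun v _ => Finset.sum_le_sum (fun a _ => ?_))
  simp only [Function.update_idem, Function.update_eq_self, Function.update_self]
  rw [hGf, hzf]
  split_ifs with h3 h4 h4
  · exact le_rfl
  · exact absurd ⟨h3.2.1, h3.2.2⟩ h4
  · exact hG v
  · exact le_rfl

end Pool.Agent.helper24.TG
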