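import Pool.Agent.helper80.TG.VS1

set_option linter.all false
set_option autoImplicit false

namespace Pool.Agent.helper24.TG

open Finset Classical

/-- the chain of equations -/
theorem VS3_aux {O A : Type} [Fintype O] [DecidableEq O] [Fintype A] [DecidableEq A]
    [AddCommGroup A] (TT : Finset (Finset O)) (D : ℕ) (hC : CS TT D) (hD : D < Fintype.card A)
    {ι : Type} [DecidableEq ι] (F : Finset ι) (own : ι → O) (sup : ι → Finset O) (a : ι → A)
    (h1 : ∀ e ∈ F, own e ∈ sup e) (h2 : ∀ e ∈ F, (sup e).card ≤ 3)
    (h3 : ∀ o, (F.filter (fun e => own e = o)).card ≤ 6) :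
    ∀ k : ℕ, 18 * k ≤ F.card → ∃ F' ⊆ F, (F'.biUnion sup).card ≤ 3 * k ∧
      ∀ S : Finset (O → A), (∀ v ∈ S, v ∈ Om A TT ∧ ∀ e ∈ F', ∑ o ∈ sup e, v o = a e) →
      S.card * (Fintype.card A - D) ^ k ≤ (Om A TT).card := by
  intro k
  induction k with
  | zero =>
    intro _
    refine ⟨∅, Finset.empty_subset _, by simp, ?_⟩
    intro S hS
    rw [pow_zero, mul_one]
    exact Finset.card_le_card (fun v hv => (hS v hv).1)
  | succ k ih =>
    intro hk
    obtain ⟨F', hF', hU, hcount⟩ := ih (by omega)
    -- an equation whose own coordinate is new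
    have hex : ∃ e ∈ F, own e ∉ F'.biUnion sup := by
      by_contra hcon
      have hcon' : ∀ e ∈ F, own e ∈ F'.biUnion sup := by
        intro e he
        by_contra h
        exact hcon ⟨e, he, h⟩
      have hle : F.card ≤ ∑ o ∈ F'.biUnion sup, (F.filter (fun e => own e = o)).card :=
        (Finset.card_eq_sum_card_fiberwise hcon').le
      have hle2 : ∑ o ∈ F'.biUnion sup, (F.filter (fun e => own e = o)).card ≤
          (F'.biUnion sup).card * 6 :=
        Finset.sum_le_card_nsmul _ _ _ (fun o _ => h3 o)
      omega
    obtain ⟨e, heF, heU⟩ := hex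
    refine ⟨insert e F', ?_, ?_, ?_⟩
    · intro x hx
      rcases Finset.mem_insert.1 hx with rfl | hx
      · exact heF
      · exact hF' hx
    · rw [Finset.biUnion_insert]
      refine (Finset.card_union_le _ _).trans ?_
      have := h2 e heF
      omega
    · -- the new equation
      intro S hS
      set G : (O → A) → ℝ := fun v => if ∀ e ∈ F', ∑ o ∈ sup e, v o = a e then 1 else 0 with hG
      set z : (O → A) → A := fun v => a e - ∑ o ∈ (sup e).erase (own e), v o with hz
      have hGf : Free G (own e) := by
        intro v b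
        simp only [hG]
        have : (∀ e_1 ∈ F', ∑ o ∈ sup e_1, Function.update v (own e) b o = a e_1) ↔
            (∀ e_1 ∈ F', ∑ o ∈ sup e_1, v o = a e_1) := by
          refine forall₂_congr (fun x hx => ?_)
          have : ∑ o ∈ sup x, Function.update v (own e) b o = ∑ o ∈ sup x, v o := by
            refine Finset.sum_congr rfl (fun y hy => ?_)
            rw [Function.update_of_ne]
            rintro rfl
            exact heU (Finset.mem_biUnion.2 ⟨x, hx, hy⟩)
          rw [this]
        simp only [this]
      have hzf : Free z (own e) := by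
        intro v b
        simp only [hz]
        congr 1
        refine Finset.sum_congr rfl (fun y hy => ?_)
        rw [Function.update_of_ne (Finset.ne_of_mem_erase hy)]
      have hG0 : ∀ v, 0 ≤ G v := by
        intro v
        simp only [hG]
        split_ifs <;> norm_num
      have key := VS1 O A TT D hC hD (own e) G z hG0 hGf hzf
      have e1 : (S.card : ℝ) ≤ ∑ v ∈ Om A TT, (if v (own e) = z v then G v else 0) := by
        have e3 : (S.card : ℝ) = ∑ v ∈ S, (1 : ℝ) := by simp
        rw [e3]
        have e4 : ∑ v ∈ S, (1 : ℝ) = ∑ v ∈ S, (if v (own e) = z v then G v else 0) := by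
          refine Finset.sum_congr rfl (fun v hv => ?_)
          have h4 := (hS v hv).2 e (Finset.mem_insert_self _ _)
          have hiff : v (own e) = z v := by
            simp only [hz]
            rw [← h4, ← Finset.add_sum_erase _ _ (h1 e heF), add_sub_cancel_right]
          rw [if_pos hiff]
          simp only [hG]
          rw [if_pos]
          intro x hx
          exact (hS v hv).2 x (Finset.mem_insert_of_mem hx)
        rw [e4]
        refine Finset.sum_le_sum_of_subset_of_nonneg (fun v hv => (hS v hv).1) ?_
        intro v _ _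
        split_ifs
        · exact hG0 v
        · exact le_rfl
      have e2 : ∑ v ∈ Om A TT, G v =
          ((Om A TT).filter (fun v => ∀ e ∈ F', ∑ o ∈ sup e, v o = a e)).card := by
        rw [Finset.card_filter]
        push_cast
        rfl
      have hcast : ((Fintype.card A : ℝ) - D) = ((Fintype.card A - D : ℕ) : ℝ) := by
        rw [Nat.cast_sub hD.le]
      rw [e2, hcast] at key
      have key2 : ((Fintype.card A - D : ℕ) : ℝ) * S.card ≤
          ((Om A TT).filter (fun v => ∀ e ∈ F', ∑ o ∈ sup e, v o = a e)).card :=
        le_trans (mul_le_mul_of_nonneg_left e1 (Nat.cast_nonneg _)) key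
      have key' : (Fintype.card A - D) * S.card ≤
            ((Om A TT).filter (fun v => ∀ e ∈ F', ∑ o ∈ sup e, v o = a e)).card := by
        exact_mod_cast key2
      have hc := hcount ((Om A TT).filter (fun v => ∀ e ∈ F', ∑ o ∈ sup e, v o = a e))
        (fun v hv => Finset.mem_filter.1 hv)
      calc S.card * (Fintype.card A - D) ^ (k + 1)
          = ((Fintype.card A - D) * S.card) * (Fintype.card A - D) ^ k := by
            rw [pow_succ]; ring
        _ ≤ _ := Nat.mul_le_mul_right _ key'
        _ ≤ _ := hc

theorem VS3 : VS3_stmt := by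
  intro O A _ _ _ _ _ TT D hC hD ι _ F own sup a m h1 h2 h3 hm
  obtain ⟨F', hF', -, hcount⟩ := VS3_aux TT D hC hD F own sup a h1 h2 h3 m hm
  refine hcount _ ?_
  intro v hv
  simp only [Finset.mem_filter] at hv
  exact ⟨hv.1, fun e he => hv.2 e (hF' he)⟩

end Pool.Agent.helper24.TG
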