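import Pool.Agent.helper80.TG.VS1

set_option linter.all false
set_option autoImplicit false

namespace Pool.Agent.helper24.TG

open Finset Classical

theorem VS4_exp {x : ℝ} (h0 : 0 ≤ x) (h1 : x ≤ 1) : Real.exp x ≤ 1 + 2 * x := by
  have hc := convexOn_exp.2 (Set.mem_univ 0) (Set.mem_univ 1) (sub_nonneg.2 h1) h0
    (sub_add_cancel 1 x)
  simp only [smul_eq_mul, mul_zero, mul_one, zero_add, Real.exp_zero] at hc
  have h2 : Real.exp 1 ≤ 3 := by
    have := Real.exp_one_lt_d9
    linarith
  nlinarith [mul_le_mul_of_nonneg_left h2 h0]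

theorem VS4_aux {O A : Type} [Fintype O] [DecidableEq O] [Fintype A] [DecidableEq A]
    [AddCommGroup A] (TT : Finset (Finset O)) (D : ℕ) (hC : CS TT D) (hD : D < Fintype.card A)
    (rk : O → ℕ) (X : O → (O → A) → ℝ) (Sg : O → ℝ) (R : ℝ) (hrk : Function.Injective rk)
    (hR : 0 < R) (hX : ∀ o v, 0 ≤ X o v ∧ X o v ≤ R)
    (hfree : ∀ o o', rk o < rk o' → Free (X o) o')
    (hSg : ∀ o v, ∑ a, X o (Function.update v o a) ≤ Sg o) (s : Finset O) :
    ∑ v ∈ Om A TT, Real.exp (∑ o ∈ s, X o v / R) ≤
      Real.exp (∑ o ∈ s, 2 * Sg o / (R * ((Fintype.card A : ℝ) - D))) * (Om A TT).card := by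
  classical
  have hcD : 0 < (Fintype.card A : ℝ) - D := by
    have : (D : ℝ) < Fintype.card A := by exact_mod_cast hD
    linarith
  induction s using Finset.induction_on_max_value rk with
  | empty => simp
  | insert o s hos hmax ih =>
    set G : (O → A) → ℝ := fun v => Real.exp (∑ o ∈ s, X o v / R) with hG
    have hlt : ∀ x ∈ s, rk x < rk o := by
      intro x hx
      refine lt_of_le_of_ne (hmax x hx) (fun h => ?_)
      exact hos (hrk h ▸ hx)
    have hGf : Free G o := by
      intro v b
      simp only [hG]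
      congr 1
      refine Finset.sum_congr rfl (fun x hx => ?_)
      rw [hfree x o (hlt x hx)]
    have hG0 : ∀ v, 0 ≤ G v := fun v => (Real.exp_pos _).le
    -- the mean of `G X`
    have hGX : ((Fintype.card A : ℝ) - D) * ∑ v ∈ Om A TT, G v * X o v ≤
        Sg o * ∑ v ∈ Om A TT, G v := by
      have e1 : ∑ v ∈ Om A TT, G v * X o v =
          ∑ a : A, ∑ v ∈ Om A TT,
            (if v o = a then G v * X o (Function.update v o a) else 0) := by
        rw [Finset.sum_comm]
        refine Finset.sum_congr rfl (fun v _ => ?_)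
        rw [Finset.sum_ite_eq]
        simp
      rw [e1, Finset.mul_sum]
      calc ∑ a : A, ((Fintype.card A : ℝ) - D) * ∑ v ∈ Om A TT,
            (if v o = a then G v * X o (Function.update v o a) else 0)
          ≤ ∑ a : A, ∑ v ∈ Om A TT, G v * X o (Function.update v o a) := by
            refine Finset.sum_le_sum (fun a _ => ?_)
            refine VS1 O A TT D hC hD o (fun v => G v * X o (Function.update v o a))
              (fun _ => a) (fun v => mul_nonneg (hG0 v) (hX _ _).1) ?_ (fun _ _ => rfl)
            intro v b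
            simp only [Function.update_idem]
            rw [hGf]
        _ = ∑ v ∈ Om A TT, G v * ∑ a : A, X o (Function.update v o a) := by
            rw [Finset.sum_comm]
            refine Finset.sum_congr rfl (fun v _ => ?_)
            rw [Finset.mul_sum]
        _ ≤ ∑ v ∈ Om A TT, G v * Sg o :=
            Finset.sum_le_sum (fun v _ => mul_le_mul_of_nonneg_left (hSg o v) (hG0 v))
        _ = Sg o * ∑ v ∈ Om A TT, G v := by
            rw [← Finset.sum_mul, mul_comm]
    have hGX' : ∑ v ∈ Om A TT, G v * X o v ≤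
        Sg o / ((Fintype.card A : ℝ) - D) * ∑ v ∈ Om A TT, G v := by
      rw [div_mul_eq_mul_div, le_div_iff₀ hcD]
      linarith
    calc ∑ v ∈ Om A TT, Real.exp (∑ o' ∈ insert o s, X o' v / R)
        = ∑ v ∈ Om A TT, G v * Real.exp (X o v / R) := by
          refine Finset.sum_congr rfl (fun v _ => ?_)
          rw [Finset.sum_insert hos, Real.exp_add, mul_comm]
      _ ≤ ∑ v ∈ Om A TT, (G v + 2 / R * (G v * X o v)) := by
          refine Finset.sum_le_sum (fun v _ => ?_)
          have h1 := VS4_exp (x := X o v / R) (div_nonneg (hX o v).1 hR.le)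
            ((div_le_one hR).2 (hX o v).2)
          calc G v * Real.exp (X o v / R) ≤ G v * (1 + 2 * (X o v / R)) :=
                mul_le_mul_of_nonneg_left h1 (hG0 v)
            _ = _ := by ring
      _ = ∑ v ∈ Om A TT, G v + 2 / R * ∑ v ∈ Om A TT, G v * X o v := by
          rw [Finset.sum_add_distrib, Finset.mul_sum]
      _ ≤ ∑ v ∈ Om A TT, G v +
            2 / R * (Sg o / ((Fintype.card A : ℝ) - D) * ∑ v ∈ Om A TT, G v) := by
          have : 0 ≤ 2 / R := by positivity
          linarith [mul_le_mul_of_nonneg_left hGX' this]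
      _ = (2 * Sg o / (R * ((Fintype.card A : ℝ) - D)) + 1) * ∑ v ∈ Om A TT, G v := by
          field_simp
          ring
      _ ≤ Real.exp (2 * Sg o / (R * ((Fintype.card A : ℝ) - D))) * ∑ v ∈ Om A TT, G v :=
          mul_le_mul_of_nonneg_right (Real.add_one_le_exp _)
            (Finset.sum_nonneg (fun v _ => hG0 v))
      _ ≤ Real.exp (2 * Sg o / (R * ((Fintype.card A : ℝ) - D))) *
            (Real.exp (∑ o ∈ s, 2 * Sg o / (R * ((Fintype.card A : ℝ) - D))) *
              (Om A TT).card) :=
          mul_le_mul_of_nonneg_left ih (Real.exp_pos _).le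
      _ = _ := by
          rw [Finset.sum_insert hos, Real.exp_add]
          ring

theorem VS4 : VS4_stmt := by
  intro O A _ _ _ _ _ TT D hC hD rk X Sg R y hrk hR hX hfree hSg hy
  classical
  have hcD : 0 < (Fintype.card A : ℝ) - D := by
    have : (D : ℝ) < Fintype.card A := by exact_mod_cast hD
    linarith
  have key := VS4_aux TT D hC hD rk X Sg R hrk hR hX hfree hSg Finset.univ
  have h1 : Real.exp (∑ o, 2 * Sg o / (R * ((Fintype.card A : ℝ) - D))) ≤
      Real.exp (y / (2 * R)) := by
    apply Real.exp_le_exp.2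
    rw [← Finset.sum_div, ← Finset.mul_sum, div_le_div_iff₀ (mul_pos hR hcD) (by positivity)]
    nlinarith
  have h2 : (((Om A TT).filter (fun v => y ≤ ∑ o, X o v)).card : ℝ) * Real.exp (y / R) ≤
      ∑ v ∈ Om A TT, Real.exp (∑ o, X o v / R) := by
    calc (((Om A TT).filter (fun v => y ≤ ∑ o, X o v)).card : ℝ) * Real.exp (y / R)
        = ∑ v ∈ (Om A TT).filter (fun v => y ≤ ∑ o, X o v), Real.exp (y / R) := by
          rw [Finset.sum_const, nsmul_eq_mul]
      _ ≤ ∑ v ∈ (Om A TT).filter (fun v => y ≤ ∑ o, X o v), Real.exp (∑ o, X o v / R) := by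
          refine Finset.sum_le_sum (fun v hv => ?_)
          rw [← Finset.sum_div]
          exact Real.exp_le_exp.2 (div_le_div_of_nonneg_right (Finset.mem_filter.1 hv).2 hR.le)
      _ ≤ _ := Finset.sum_le_sum_of_subset_of_nonneg (Finset.filter_subset _ _)
          (fun _ _ _ => (Real.exp_pos _).le)
  have h3 : Real.exp (y / R) = Real.exp (y / (2 * R)) * Real.exp (y / (2 * R)) := by
    rw [← Real.exp_add]
    congr 1
    field_simp
    ring
  have h4 : (0 : ℝ) < Real.exp (y / (2 * R)) := Real.exp_pos _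
  have h5 : (0 : ℝ) ≤ (Om A TT).card := Nat.cast_nonneg _
  have h6 : (((Om A TT).filter (fun v => y ≤ ∑ o, X o v)).card : ℝ) *
      Real.exp (y / (2 * R)) * Real.exp (y / (2 * R)) ≤
      (Om A TT).card * Real.exp (y / (2 * R)) := by
    calc _ = (((Om A TT).filter (fun v => y ≤ ∑ o, X o v)).card : ℝ) * Real.exp (y / R) := by
          rw [h3]; ring
      _ ≤ _ := h2
      _ ≤ _ := key
      _ ≤ Real.exp (y / (2 * R)) * (Om A TT).card := mul_le_mul_of_nonneg_right h1 h5
      _ = _ := by ring
  exact le_of_mul_le_mul_right h6 h4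

end Pool.Agent.helper24.TG
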